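import Pool.Agent.Helper5.TreeExp.Upper
import Pool.Agent.Helper5.TreeExp.Lower

/-!
Deterministic branching programs for tree evaluation on complete `d`-ary trees with `h` levels:
with `b = log₂ k` and `l = log₂ (2 b)`, the number of states needed is at least
`c b ^ (-d) k ^ (2 d - d ^ (3 - h))` and at most `k ^ (2 d) 2 ^ (C (h l + √(h b l)))`.
-/

namespace Pool.Agent.Helper19.Old.TreeExponent

open Pool.Agent.Helper5.TreeExp

theorem result (d : ℕ) (hd : 2 ≤ d) :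
    (∃ c : ℝ, 0 < c ∧ ∀ h k : ℕ, 3 ≤ h → 2 ≤ k → ∀ (N : ℕ) (B : BP (Var d k (h - 1)) k N),
      Solves d h k B →
        c * (k : ℝ) ^ (2 * (d : ℝ) - (d : ℝ) ^ (3 - (h : ℝ))) ≤
          (Real.logb 2 k) ^ d * (N : ℝ)) ∧
    (∃ C : ℝ, ∀ h k : ℕ, 3 ≤ h → 2 ≤ k → ∃ (N : ℕ) (B : BP (Var d k (h - 1)) k N),
      Solves d h k B ∧
        (N : ℝ) ≤ (k : ℝ) ^ (2 * d) *
          (2 : ℝ) ^ (C * (h * Real.logb 2 (2 * Real.logb 2 k) +
            Real.sqrt (h * Real.logb 2 k * Real.logb 2 (2 * Real.logb 2 k))))) := by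
  refine ⟨lower d hd, ?_⟩
  obtain ⟨C, hC⟩ := upper d hd
  exact ⟨C, fun h k hh hk => hC h k (by omega) hk⟩

end Pool.Agent.Helper19.Old.TreeExponent
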